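import Mathlib

/-!
# Todd pseudocomplete dense subgroups of products of metrizable groups

If `G` is a dense subgroup of a product of (separable) metrizable groups `H i` and `G` is Todd
pseudocomplete, then every `H i` is Čech-complete (equivalently, completely metrizable).
-/

set_option autoImplicit false

open Set Filter Topology

namespace Pool.Agent.Results.MP_5e9a16_gt.ToddDense

universe u v w

/-- A sequence `B` of subsets is nested if `closure (B (n+1)) ⊆ interior (B n)` for every `n`. -/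
def Nested {X : Type u} [TopologicalSpace X] (B : ℕ → Set X) : Prop :=
  ∀ n, closure (B (n + 1)) ⊆ interior (B n)

/-- A pseudobase: every member has non-empty interior, and every non-empty open set contains
a member. -/
def IsPseudobase {X : Type u} [TopologicalSpace X] (P : Set (Set X)) : Prop :=
  (∀ B ∈ P, (interior B).Nonempty) ∧
    ∀ U : Set X, IsOpen U → U.Nonempty → ∃ B ∈ P, B ⊆ U

/-- A complete sequence of pseudobases: the intersection of every nested sequence
with `B n ∈ P n` is non-empty. -/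
def IsCompleteSequence {X : Type u} [TopologicalSpace X] (P : ℕ → Set (Set X)) : Prop :=
  (∀ n, IsPseudobase (P n)) ∧
    ∀ B : ℕ → Set X, (∀ n, B n ∈ P n) → Nested B → (⋂ n, B n).Nonempty

/-- Todd pseudocompleteness: there is a complete sequence of pseudobases. -/
def ToddPseudocomplete (X : Type u) [TopologicalSpace X] : Prop :=
  ∃ P : ℕ → Set (Set X), IsCompleteSequence P

/-- Čech-completeness: `X` is a `Gδ` subset of its Stone-Čech compactification. -/
def CechComplete (X : Type u) [TopologicalSpace X] : Prop :=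
  IsGδ (range (stoneCechUnit : X → StoneCech X))

/-- Auxiliary notion: the image of every open set lies in the interior of its closure. -/
def NearlyOpen {X : Type u} {Y : Type v} [TopologicalSpace X] [TopologicalSpace Y]
    (p : X → Y) : Prop :=
  ∀ U : Set X, IsOpen U → p '' U ⊆ interior (closure (p '' U))

section Core

variable {X : Type u} {Y : Type v} [TopologicalSpace X] [TopologicalSpace Y]

lemma step [RegularSpace X] {p : X → Y} (hp : Continuous p) (hpo : NearlyOpen p)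
    {P : Set (Set X)} (hP : IsPseudobase P) {B : Set X} {U : Set Y}
    (hUo : IsOpen U) (hUne : U.Nonempty) (hU : U ⊆ closure (p '' interior B)) :
    ∃ B' ∈ P, closure B' ⊆ interior B ∧ p '' B' ⊆ U ∧
      ∃ U' : Set Y, IsOpen U' ∧ U'.Nonempty ∧ U' ⊆ U ∧ U' ⊆ closure (p '' interior B') := by
  obtain ⟨y, hy⟩ := hUne
  obtain ⟨z, hzU, x, hxB, rfl⟩ := mem_closure_iff.1 (hU hy) U hUo hy
  have hO : IsOpen (interior B ∩ p ⁻¹' U) := isOpen_interior.inter (hUo.preimage hp)
  obtain ⟨E, hE, hEc, hEO⟩ := exists_mem_nhds_isClosed_subset (hO.mem_nhds ⟨hxB, hzU⟩)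
  obtain ⟨B', hB'P, hB'E⟩ := hP.2 (interior E) isOpen_interior ⟨x, mem_interior_iff_mem_nhds.2 hE⟩
  have hB'E' : B' ⊆ E := hB'E.trans interior_subset
  refine ⟨B', hB'P, ?_, ?_, interior (closure (p '' interior B')) ∩ U, ?_, ?_, ?_, ?_⟩
  · exact (closure_minimal hB'E' hEc).trans (hEO.trans inter_subset_left)
  · rintro _ ⟨t, ht, rfl⟩
    exact (hEO (hB'E' ht)).2
  · exact isOpen_interior.inter hUo
  · obtain ⟨t, ht⟩ := hP.1 B' hB'P
    exact ⟨p t, hpo _ isOpen_interior ⟨t, ht, rfl⟩, (hEO (hB'E' (interior_subset ht))).2⟩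
  · exact inter_subset_right
  · exact inter_subset_left.trans interior_subset

/-- Dependent choice along `ℕ` with an invariant. -/
lemma dep_choice {S : Type w} (P : ℕ → S → Prop) (R : ℕ → S → S → Prop) (s0 : S) (h0 : P 0 s0)
    (hstep : ∀ n s, P n s → ∃ s', P (n + 1) s' ∧ R n s s') :
    ∃ f : ℕ → S, (∀ n, P n (f n)) ∧ ∀ n, R n (f n) (f (n + 1)) := by
  classical
  choose! g hg using hstep
  let f : ℕ → S := fun n => Nat.rec s0 (fun n s => g n s) n
  have hf : ∀ n, P n (f n) := by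
    intro n
    induction n with
    | zero => exact h0
    | succ n ih => exact (hg n (f n) ih).1
  exact ⟨f, hf, fun n => (hg n (f n) (hf n)).2⟩

end Core

section Grp

variable {H : Type v} [Group H] [TopologicalSpace H] [IsTopologicalGroup H]

/-- If translations by `x k` (large `k`) map `U` into `W`, then the inverse translations map some
non-empty open subset of `W` into `U`. -/
lemma trans_lemma {x : ℕ → H}
    (hL : ∀ V ∈ 𝓝 (1 : H), ∃ K, ∀ k ≥ K, ∀ l ≥ K, (x k)⁻¹ * x l ∈ V)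
    {U W : Set H} (hU : IsOpen U) (hUne : U.Nonempty) (hW : IsOpen W)
    {K : ℕ} (hK : ∀ k ≥ K, ∀ a ∈ U, x k * a ∈ W) :
    ∃ O : Set H, IsOpen O ∧ O.Nonempty ∧ O ⊆ W ∧ ∃ m, ∀ k ≥ m, ∀ b ∈ O, (x k)⁻¹ * b ∈ U := by
  obtain ⟨a, ha⟩ := hUne
  -- `V * V * a ⊆ U`
  have h1 : (fun q : H × H => q.1 * q.2 * a) ⁻¹' U ∈ 𝓝 ((1 : H), (1 : H)) := by
    apply ContinuousAt.preimage_mem_nhds
    · fun_prop
    · simpa using hU.mem_nhds ha
  rw [nhds_prod_eq, mem_prod_same_iff] at h1
  obtain ⟨V, hV, hVU⟩ := h1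
  obtain ⟨V', hV'V, hV'o, h1V'⟩ := mem_nhds_iff.1 hV
  obtain ⟨m, hm⟩ := hL V hV
  set n := max m K with hn
  refine ⟨{b | (x n)⁻¹ * b * a⁻¹ ∈ V'} ∩ W, ?_, ⟨x n * a, ?_, ?_⟩, inter_subset_right, n, ?_⟩
  · exact (hV'o.preimage (by fun_prop)).inter hW
  · simpa using h1V'
  · exact hK n (le_max_right _ _) a ha
  · rintro k hk b ⟨hb, -⟩
    have e : (x k)⁻¹ * b = ((x k)⁻¹ * x n) * ((x n)⁻¹ * b * a⁻¹) * a := by group
    rw [e]
    exact hVU (show (((x k)⁻¹ * x n, (x n)⁻¹ * b * a⁻¹) : H × H) ∈ V ×ˢ V from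
      ⟨hm k ((le_max_left _ _).trans hk) n (le_max_left _ _), hV'V hb⟩)

/-- The convergence of two-sided Cauchy sequences. -/
lemma tendsto_of_cauchy {X : Type u} [TopologicalSpace X] [RegularSpace X]
    [TopologicalSpace.MetrizableSpace H] {p : X → H} (hp : Continuous p) (hpo : NearlyOpen p)
    (hpd : DenseRange p) (hX : ToddPseudocomplete X) {x : ℕ → H}
    (hL : ∀ V ∈ 𝓝 (1 : H), ∃ K, ∀ k ≥ K, ∀ l ≥ K, (x k)⁻¹ * x l ∈ V)
    (hR : ∀ V ∈ 𝓝 (1 : H), ∃ K, ∀ k ≥ K, ∀ l ≥ K, x k * (x l)⁻¹ ∈ V) :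
    ∃ a, Tendsto x atTop (𝓝 a) := by
  obtain ⟨P, hP, hPc⟩ := hX
  let _ : MetricSpace H := TopologicalSpace.metrizableSpaceMetric H
  let S := Set X × Set H × Set X × Set H
  let Inv : ℕ → S → Prop := fun n s =>
    IsOpen s.2.1 ∧ s.2.1.Nonempty ∧
      s.2.1 ⊆ closure (p '' interior s.1) ∧ IsOpen s.2.2.2 ∧
      s.2.2.2 ⊆ closure (p '' interior s.2.2.1) ∧ ∃ K, ∀ k ≥ K, ∀ a ∈ s.2.1, x k * a ∈ s.2.2.2
  let R : ℕ → S → S → Prop := fun n s t =>
    t.1 ∈ P n ∧ t.2.2.1 ∈ P n ∧
    closure t.1 ⊆ interior s.1 ∧ closure t.2.2.1 ⊆ interior s.2.2.1 ∧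
      ∃ O₁ O₂ : Set H, p '' t.1 ⊆ O₁ ∧ p '' t.2.2.1 ⊆ O₂ ∧
        (∀ a ∈ O₂, ∀ b ∈ O₂, dist a b ≤ 1 / ((n : ℝ) + 1)) ∧
        ∃ m, ∀ k ≥ m, ∀ a ∈ O₁, x k * a ∈ O₂
  have hstep : ∀ n s, Inv n s → ∃ s', Inv (n + 1) s' ∧ R n s s' := by
    rintro n ⟨B, U, C, W⟩ ⟨hU, hUne, hUB, hW, hWC, K, hK⟩
    simp only at hU hUne hUB hW hWC hK
    obtain ⟨O, hO, ⟨b, hb⟩, hOW, m, hm⟩ := trans_lemma hL hU hUne hW hK
    have hpos : (0 : ℝ) < 1 / (2 * ((n : ℝ) + 1)) := by positivity
    set O' := O ∩ Metric.ball b (1 / (2 * ((n : ℝ) + 1))) with hO'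
    have hO'o : IsOpen O' := hO.inter Metric.isOpen_ball
    have hO'ne : O'.Nonempty := ⟨b, hb, Metric.mem_ball_self hpos⟩
    obtain ⟨C', hC'P, hC'C, hpC', W', hW', hW'ne, hW'O, hW'C⟩ :=
      step hp hpo (hP n) hO'o hO'ne ((inter_subset_left.trans hOW).trans hWC)
    have hR' : ∀ V ∈ 𝓝 (1 : H), ∃ K, ∀ k ≥ K, ∀ l ≥ K, ((x k)⁻¹)⁻¹ * (x l)⁻¹ ∈ V := by
      simpa using hR
    obtain ⟨O₁, hO₁, hO₁ne, hO₁U, m', hm'⟩ :=
      trans_lemma (x := fun k => (x k)⁻¹) hR' hW' hW'ne hU (K := m)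
        (fun k hk a ha => hm k hk a (hW'O ha).1)
    obtain ⟨B', hB'P, hB'B, hpB', U', hU', hU'ne, hU'O, hU'B⟩ :=
      step hp hpo (hP n) hO₁ hO₁ne (hO₁U.trans hUB)
    have hm'' : ∀ k ≥ m', ∀ a ∈ O₁, x k * a ∈ W' := by
      intro k hk a ha
      simpa using hm' k hk a ha
    refine ⟨(B', U', C', W'), ⟨hU', hU'ne, hU'B, hW', hW'C, m', ?_⟩,
      hB'P, hC'P, hB'B, hC'C, O₁, O', hpB', hpC', ?_, m', ?_⟩
    · exact fun k hk a ha => hm'' k hk a (hU'O ha)
    · intro a ha b' hb'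
      have h1 := (Metric.mem_ball.1 ha.2).le
      have h2 := (Metric.mem_ball.1 hb'.2).le
      have h3 := dist_triangle_right a b' b
      have h4 : 1 / (2 * ((n : ℝ) + 1)) + 1 / (2 * ((n : ℝ) + 1)) = 1 / ((n : ℝ) + 1) := by
        field_simp; norm_num
      linarith
    · exact fun k hk a ha => hW'O (hm'' k hk a ha)
  -- the initial state
  have hinit : Inv 0 ((univ, univ, univ, univ) : S) := by
    have h : closure (p '' interior (univ : Set X)) = univ := by
      simpa using hpd.closure_range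
    refine ⟨isOpen_univ, univ_nonempty, ?_, isOpen_univ, ?_, 0, fun _ _ _ _ => mem_univ _⟩
    · exact h.ge
    · exact h.ge
  obtain ⟨f, -, hf⟩ := dep_choice Inv R _ hinit hstep
  obtain ⟨g, hg⟩ := hPc (fun n => (f (n + 1)).1) (fun n => (hf n).1) (fun n => (hf (n + 1)).2.2.1)
  obtain ⟨h, hh⟩ := hPc (fun n => (f (n + 1)).2.2.1) (fun n => (hf n).2.1)
    (fun n => (hf (n + 1)).2.2.2.1)
  rw [mem_iInter] at hg hh
  have key : Tendsto (fun k => x k * p g) atTop (𝓝 (p h)) := by
    rw [Metric.tendsto_atTop]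
    intro ε hε
    obtain ⟨n, hn⟩ := exists_nat_one_div_lt hε
    obtain ⟨-, -, -, -, O₁, O₂, h1, h2, h3, m, hm⟩ := hf n
    refine ⟨m, fun k hk => lt_of_le_of_lt (h3 _ (hm k hk _ (h1 ⟨g, hg n, rfl⟩)) _
      (h2 ⟨h, hh n, rfl⟩)) hn⟩
  refine ⟨p h * (p g)⁻¹, ?_⟩
  simpa using key.mul_const (p g)⁻¹

/-- A metrizable group that is a nearly open dense image of a Todd pseudocomplete space is
completely metrizable. -/
lemma completelyMetrizable_of_nearlyOpen {X : Type u} [TopologicalSpace X] [RegularSpace X]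
    [TopologicalSpace.MetrizableSpace H] {p : X → H} (hp : Continuous p) (hpo : NearlyOpen p)
    (hpd : DenseRange p) (hX : ToddPseudocomplete X) :
    TopologicalSpace.IsCompletelyMetrizableSpace H := by
  let uL : UniformSpace H := IsTopologicalGroup.leftUniformSpace H
  let uR : UniformSpace H := IsTopologicalGroup.rightUniformSpace H
  have hu : (uL ⊓ uR).toTopologicalSpace = ‹TopologicalSpace H› := by
    change uL.toTopologicalSpace ⊓ uR.toTopologicalSpace = _
    exact inf_idem _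
  let u : UniformSpace H := (uL ⊓ uR).replaceTopology hu.symm
  have hunif : @uniformity H u = comap (fun q : H × H => q.1⁻¹ * q.2) (𝓝 1) ⊓
      comap (fun q : H × H => q.2 * q.1⁻¹) (𝓝 1) := rfl
  have hcg : (@uniformity H u).IsCountablyGenerated := by
    rw [hunif]
    infer_instance
  have hcs : @CompleteSpace H u := by
    refine @UniformSpace.complete_of_cauchySeq_tendsto H u hcg fun x hx => ?_
    rw [@cauchySeq_iff_tendsto _ _ u _ _, hunif, tendsto_inf, tendsto_comap_iff,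
      tendsto_comap_iff, ← prod_atTop_atTop_eq] at hx
    have key : ∀ F : ℕ × ℕ → H, Tendsto F (atTop ×ˢ atTop) (𝓝 1) →
        ∀ V ∈ 𝓝 (1 : H), ∃ K, ∀ k ≥ K, ∀ l ≥ K, F (k, l) ∈ V := by
      intro F hF V hV
      have h1 := hF.eventually hV
      rw [prod_atTop_atTop_eq, eventually_atTop] at h1
      obtain ⟨⟨a, b⟩, hab⟩ := h1
      exact ⟨max a b, fun k hk l hl => hab (k, l) ⟨(le_max_left _ _).trans hk,
        (le_max_right _ _).trans hl⟩⟩
    refine tendsto_of_cauchy hp hpo hpd hX (x := x) ?_ ?_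
    · intro V hV
      exact key _ hx.1 V hV
    · intro V hV
      obtain ⟨K, hK⟩ := key _ hx.2 V hV
      exact ⟨K, fun k hk l hl => hK l hl k hk⟩
  have hT0 : @T0Space H u.toTopologicalSpace := inferInstanceAs (T0Space H)
  exact @TopologicalSpace.IsCompletelyMetrizableSpace.of_completeSpace_metrizable H u hcs hcg hT0

end Grp

/-- Completely metrizable spaces are Čech-complete. -/
lemma cechComplete_of_completelyMetrizable (Y : Type v) [TopologicalSpace Y]
    [TopologicalSpace.IsCompletelyMetrizableSpace Y] : CechComplete Y := by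
  let _ := TopologicalSpace.upgradeIsCompletelyMetrizable Y
  have hi : IsDenseEmbedding (stoneCechUnit : Y → StoneCech Y) := isDenseEmbedding_stoneCechUnit
  have hU : ∀ n : ℕ, IsOpen (⋃₀ {O : Set (StoneCech Y) | IsOpen O ∧
      ∀ a ∈ stoneCechUnit ⁻¹' O, ∀ b ∈ stoneCechUnit ⁻¹' O, dist a b < 1 / ((n : ℝ) + 1)}) :=
    fun n => isOpen_sUnion fun O hO => hO.1
  suffices h : range (stoneCechUnit : Y → StoneCech Y) = ⋂ n : ℕ,
      ⋃₀ {O : Set (StoneCech Y) | IsOpen O ∧
      ∀ a ∈ stoneCechUnit ⁻¹' O, ∀ b ∈ stoneCechUnit ⁻¹' O, dist a b < 1 / ((n : ℝ) + 1)} by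
    rw [CechComplete, h]
    exact IsGδ.iInter_of_isOpen hU
  apply Subset.antisymm
  · rintro _ ⟨y, rfl⟩
    rw [mem_iInter]
    intro n
    have hpos : (0 : ℝ) < 1 / (2 * ((n : ℝ) + 1)) := by positivity
    obtain ⟨O, hO, hOe⟩ := hi.isInducing.isOpen_iff.1
      (Metric.isOpen_ball (x := y) (ε := 1 / (2 * ((n : ℝ) + 1))))
    refine ⟨O, ⟨hO, ?_⟩, ?_⟩
    · rw [hOe]
      intro a ha b hb
      have h1 := Metric.mem_ball.1 ha
      have h2 := Metric.mem_ball.1 hb
      have h3 := dist_triangle_right a b y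
      have h4 : 1 / (2 * ((n : ℝ) + 1)) + 1 / (2 * ((n : ℝ) + 1)) = 1 / ((n : ℝ) + 1) := by
        field_simp; norm_num
      linarith
    · have : y ∈ stoneCechUnit ⁻¹' O := by
        rw [hOe]; exact Metric.mem_ball_self hpos
      exact this
  · intro z hz
    rw [mem_iInter] at hz
    have hne : (comap (stoneCechUnit : Y → StoneCech Y) (𝓝 z)).NeBot := hi.comap_nhds_neBot z
    have hc : Cauchy (comap (stoneCechUnit : Y → StoneCech Y) (𝓝 z)) := by
      rw [Metric.cauchy_iff]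
      refine ⟨hne, fun ε hε => ?_⟩
      obtain ⟨n, hn⟩ := exists_nat_one_div_lt hε
      obtain ⟨O, ⟨hO, hOd⟩, hzO⟩ := hz n
      exact ⟨stoneCechUnit ⁻¹' O, preimage_mem_comap (hO.mem_nhds hzO),
        fun a ha b hb => (hOd a ha b hb).trans hn⟩
    obtain ⟨y, hy⟩ := CompleteSpace.complete hc
    refine ⟨y, ?_⟩
    have h1 : Tendsto (stoneCechUnit : Y → StoneCech Y)
        (comap (stoneCechUnit : Y → StoneCech Y) (𝓝 z)) (𝓝 (stoneCechUnit y)) :=
      (continuous_stoneCechUnit.tendsto y).mono_left hy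
    exact tendsto_nhds_unique h1 tendsto_comap

/-- The restriction of an open continuous map to a dense subset is nearly open. -/
lemma nearlyOpen_restrict {X : Type u} {Y : Type v} [TopologicalSpace X] [TopologicalSpace Y]
    {q : X → Y} (hq : Continuous q) (hqo : IsOpenMap q) {D : Set X} (hD : Dense D) :
    NearlyOpen (fun x : D => q x) := by
  intro U hU
  obtain ⟨W, hW, rfl⟩ := isOpen_induced_iff.1 hU
  have h1 : (fun x : D => q x) '' (Subtype.val ⁻¹' W) = q '' (W ∩ D) := by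
    ext y
    constructor
    · rintro ⟨⟨x, hx⟩, hxW, rfl⟩
      exact ⟨x, ⟨hxW, hx⟩, rfl⟩
    · rintro ⟨x, ⟨hxW, hx⟩, rfl⟩
      exact ⟨⟨x, hx⟩, hxW, rfl⟩
  rw [h1]
  have h2 : q '' W ⊆ closure (q '' (W ∩ D)) :=
    (image_mono (hD.open_subset_closure_inter hW)).trans (image_closure_subset_closure_image hq)
  exact (image_mono inter_subset_left).trans (interior_maximal h2 (hqo W hW))

/-- **Main theorem.** Let `G` be a dense subgroup of a product of separable metrizable groups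
`H i`. If `G` is Todd pseudocomplete, then every `H i` is Čech-complete (and completely
metrizable). Separability is not needed. -/
theorem result {I : Type u} (H : I → Type v) [∀ i, Group (H i)] [∀ i, TopologicalSpace (H i)]
    [∀ i, IsTopologicalGroup (H i)] [∀ i, TopologicalSpace.MetrizableSpace (H i)]
    (G : Subgroup (∀ i, H i)) (hG : Dense (G : Set (∀ i, H i)))
    (hT : ToddPseudocomplete G) (i : I) :
    CechComplete (H i) ∧ TopologicalSpace.IsCompletelyMetrizableSpace (H i) := by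
  have hc : Continuous (fun x : ∀ i, H i => x i) := continuous_apply i
  have ho : IsOpenMap (fun x : ∀ i, H i => x i) := isOpenMap_eval i
  have hpo : NearlyOpen (fun x : G => (x : ∀ i, H i) i) := nearlyOpen_restrict hc ho hG
  have hpc : Continuous (fun x : G => (x : ∀ i, H i) i) := hc.comp continuous_subtype_val
  have hpd : DenseRange (fun x : G => (x : ∀ i, H i) i) := by
    have h1 : DenseRange (Subtype.val : G → ∀ i, H i) := by
      simpa [DenseRange] using hG
    exact (Function.surjective_eval i).denseRange.comp h1 hc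
  have := completelyMetrizable_of_nearlyOpen hpc hpo hpd hT
  exact ⟨cechComplete_of_completelyMetrizable (H i), this⟩

end Pool.Agent.Results.MP_5e9a16_gt.ToddDense
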